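import Pool.Agent.Helper90_SQD.DEF

/-!
# SQD, the assembly
-/

set_option autoImplicit false

namespace Pool.Agent.SQD.H90

open FirstOrder FirstOrder.Language Pool.Agent.SqDef

variable {L : FirstOrder.Language.{0, 0}} [L.Structure ℕ]

theorem log_pow_le (A x : ℕ) (hx : 1 ≤ x) : (Real.log x) ^ A ≤ (A.factorial : ℝ) * x := by
  have hx0 : (0 : ℝ) < x := by exact_mod_cast hx
  have h0 : 0 ≤ Real.log x := Real.log_nonneg (by exact_mod_cast hx)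
  have h1 := Real.pow_div_factorial_le_exp (Real.log x) h0 A
  rw [Real.exp_log hx0, div_le_iff₀ (by positivity)] at h1
  linarith

theorem fin_ (hRed : RedStmt) (hCnt : CntStmt) (σ : Sig L) (A : ℕ) :
    ∃ E : Set ℕ, Set.Definable (∅ : Set ℕ) L {v : Fin 1 → ℕ | v 0 ∈ E} ∧
      (∀ y ∈ E, IsSquare y) ∧ ∃ C : ℝ, ∀ x : ℕ, 2 ≤ x →
        ({n : ℕ | n ≤ x ∧ n ^ 2 ∉ E}.ncard : ℝ) ≤ C * x / (Real.log x) ^ A := by
  set K : ℕ := 4 * (LA A) ^ 4 with hK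
  have hL : 1 ≤ LA A := by unfold LA; omega
  obtain ⟨C, hC⟩ := hCnt A
  refine ⟨{y | Twn K (fun n => IsSquare n) y}, def_twn σ K, fun y hy => twn_square hy,
    ((K : ℝ) + 1) * A.factorial + C, fun x hx => ?_⟩
  have hx1 : (1 : ℝ) < x := by exact_mod_cast (by omega : 1 < x)
  have hlog : 0 < Real.log x := Real.log_pos hx1
  have hsub : {n : ℕ | n ≤ x ∧ n ^ 2 ∉ {y | Twn K (fun n => IsSquare n) y}} ⊆
      Set.Iic K ∪ {n : ℕ | 1 ≤ n ∧ n ≤ x ∧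
        ((∃ d : ℕ, ¬ IsSquare d ∧ d ∣ n ∧ d * d ≤ n ∧ Spl (LA A) 1 d n) ∨
          Spl (LA A) 2 2 n)} := by
    rintro n ⟨hn, hne⟩
    rcases Nat.lt_or_ge K n with h | h
    · right
      have hn1 : 1 ≤ n := by omega
      have hn2 : K + 1 ≤ n ^ 2 := (Nat.succ_le_of_lt h).trans (Nat.le_self_pow two_ne_zero n)
      refine ⟨hn1, hn, ?_⟩
      by_contra hcon
      apply hne
      refine ⟨n ^ 2 - K, by omega, by omega, fun v hv hw => ?_⟩
      by_contra hsq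
      exact hcon (hRed (LA A) n (n ^ 2 - K) v hL hn1 (by omega) hv (by rw [← hK]; omega)
        (by rw [← hK]; exact hw) (by rw [← hK]; exact hsq))
    · left; exact h
  have hfin : {n : ℕ | 1 ≤ n ∧ n ≤ x ∧
        ((∃ d : ℕ, ¬ IsSquare d ∧ d ∣ n ∧ d * d ≤ n ∧ Spl (LA A) 1 d n) ∨
          Spl (LA A) 2 2 n)}.Finite := (Set.finite_Iic x).subset fun n hn => hn.2.1
  have h1 := (Set.ncard_le_ncard hsub ((Set.finite_Iic K).union hfin)).trans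
    (Set.ncard_union_le _ _)
  have h2 : (Set.Iic K).ncard = K + 1 := by
    rw [← Finset.coe_Iic, Set.ncard_coe_finset, Nat.card_Iic]
  rw [h2] at h1
  have h3 := hC x hx
  have h4 : (1 : ℝ) ≤ A.factorial * x / (Real.log x) ^ A := by
    rw [le_div_iff₀ (by positivity), one_mul]
    exact log_pow_le A x (by omega)
  calc ({n : ℕ | n ≤ x ∧ n ^ 2 ∉ {y | Twn K (fun n => IsSquare n) y}}.ncard : ℝ)
      ≤ ((K + 1 + {n : ℕ | 1 ≤ n ∧ n ≤ x ∧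
        ((∃ d : ℕ, ¬ IsSquare d ∧ d ∣ n ∧ d * d ≤ n ∧ Spl (LA A) 1 d n) ∨
          Spl (LA A) 2 2 n)}.ncard : ℕ) : ℝ) := by exact_mod_cast h1
    _ = ((K : ℝ) + 1) * 1 + ({n : ℕ | 1 ≤ n ∧ n ≤ x ∧
        ((∃ d : ℕ, ¬ IsSquare d ∧ d ∣ n ∧ d * d ≤ n ∧ Spl (LA A) 1 d n) ∨
          Spl (LA A) 2 2 n)}.ncard : ℝ) := by push_cast; ring
    _ ≤ ((K : ℝ) + 1) * (A.factorial * x / (Real.log x) ^ A) + C * x / (Real.log x) ^ A := by
        gcongr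
    _ = _ := by ring


end Pool.Agent.SQD.H90
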