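import Pool.Agent.SQD.Stmts
import Pool.Agent.Sq42_Def.ArithSets

/-!
# SQD, the logic part: the numbers all of whose twins are in an arithmetical set
-/

set_option autoImplicit false

namespace Pool.Agent.SQD.H90

open FirstOrder FirstOrder.Language Pool.Agent.SqDef

variable {L : FirstOrder.Language.{0, 0}} [L.Structure ℕ]

theorem E1_shift (σ : Sig L) {A : ℕ → Prop} (hA : E1 L A) (K : ℕ) :
    E1 L (fun a => A (a + K)) := by
  refine (((E2.at σ (E2_shift σ K) 0 1).and (E1.at σ hA 1)).ex σ 1).congr fun w hw => ?_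
  constructor
  · rintro ⟨x, _, h1, h2⟩
    simp at h1 h2
    rw [← h1]
    exact h2
  · intro h
    refine ⟨w 0 + K, by have := hw 0; omega, ?_⟩
    simp
    exact h

/-- the numbers `u + K`, `u ≥ 1`, such that `v + K` is in `A` for all `v` in the class of `u` -/
def Twn (K : ℕ) (A : ℕ → Prop) (y : ℕ) : Prop :=
  ∃ u : ℕ, 1 ≤ u ∧ y = u + K ∧ ∀ v : ℕ, 1 ≤ v → Win K u v → A (v + K)

theorem exists_twn (σ : Sig L) {A : ℕ → Prop} (hA : E1 L A) (K : ℕ) : D1 L (Twn K A) := by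
  obtain ⟨QA, hQA, hQA'⟩ := E1.toD σ (E1_shift σ hA K)
  obtain ⟨QS, hQS, hQS'⟩ := exists_same σ K
  have h1 : D L (fun v => IsCode (v 2) → QS (v 2) (v 1) → QA (v 2)) :=
    ((D1_isCode σ).at σ 2 0).imp ((hQS.at σ 2 0 1 0).imp (hQA.at σ 2 0))
  have h2 : D L (fun v => ¬ v 1 = 0) := (D.isConst σ 1 0).not
  have h3 : D L (fun v => v 0 = v 1 + K) := D2.at σ (R := fun x y => x = y) (D.eq 0 1) 0 0 1 K
  refine ((h2.and (h3.and (h1.all 2))).ex 1).congr fun v => ?_
  unfold Twn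
  constructor
  · rintro ⟨u, h4, h5, h6⟩
    simp at h4 h5 h6
    refine ⟨u, by omega, h5, fun x hx hw => ?_⟩
    have h7 := h6 (cd x) ⟨x, hx, rfl⟩ ((hQS' x u hx).2 fun j hj p hp => (hw j hj p hp).symm)
    exact (hQA' x hx).1 h7
  · rintro ⟨u, h4, h5, h6⟩
    refine ⟨u, ?_⟩
    simp
    refine ⟨by omega, h5, fun c hc hs => ?_⟩
    obtain ⟨x, hx, rfl⟩ := hc
    refine (hQA' x hx).2 (h6 x hx fun j hj p hp => ?_)
    exact ((hQS' x u hx).1 hs j hj p hp).symm

/-- The squares all of whose twins are squares form a definable set. -/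
theorem def_twn (σ : Sig L) (K : ℕ) :
    Set.Definable (∅ : Set ℕ) L {v : Fin 1 → ℕ | Twn K (fun n => IsSquare n) (v 0)} :=
  D1.definable (exists_twn σ (A := fun n => IsSquare n) (arith_E1 σ squares_arith) K)

theorem twn_square {K y : ℕ} (h : Twn K (fun n => IsSquare n) y) : IsSquare y := by
  obtain ⟨u, hu, rfl, h1⟩ := h
  exact h1 u hu fun j _ p _ => Iff.rfl


end Pool.Agent.SQD.H90
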